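import Pool.Agent.H45.Tw.Hall

set_option autoImplicit false

/-!
# A new row at a triangle whose rows are not blocked
-/

namespace Pool.Agent.H45.Tw

open Finset

/-- The code of a colour: its index in `e`, or `5`. -/
def code (e : Fin 5 → ℕ) (x : ℕ) : ℕ :=
  if x = e 0 then 0 else if x = e 1 then 1 else if x = e 2 then 2 else if x = e 3 then 3
  else if x = e 4 then 4 else 5

theorem code_e {e : Fin 5 → ℕ} (he : Function.Injective e) (t : Fin 5) : code e (e t) = t := by
  have h : ∀ s t : Fin 5, e s = e t ↔ s = t := fun s t => he.eq_iff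
  fin_cases t <;> simp [code, h]

theorem code_cases (e : Fin 5 → ℕ) (x : ℕ) :
    code e x = 5 ∨ ∃ t : Fin 5, code e x = t ∧ x = e t := by
  unfold code
  split_ifs with h0 h1 h2 h3 h4
  · exact Or.inr ⟨0, rfl, h0⟩
  · exact Or.inr ⟨1, rfl, h1⟩
  · exact Or.inr ⟨2, rfl, h2⟩
  · exact Or.inr ⟨3, rfl, h3⟩
  · exact Or.inr ⟨4, rfl, h4⟩
  · exact Or.inl rfl

theorem code_dif (e : Fin 5 → ℕ) {x y : ℕ} (h : x ≠ y) : dif (code e x) (code e y) = true := by
  rcases code_cases e x with h1 | ⟨t, h1, h2⟩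
  · simp [dif, h1]
  · rcases code_cases e y with h3 | ⟨s, h3, h4⟩
    · have := t.2
      simp [dif, h1, h3]
    · have hne : (t : ℕ) ≠ s := by
        intro hts
        apply h
        rw [h2, h4, Fin.ext hts]
      simp [dif, h1, h3, hne]

/-- The codes of a row, with the positions in another order. -/
def row (e : Fin 5 → ℕ) (σ : Equiv.Perm (Fin 5)) (f : Fin 5 → ℕ) : List ℕ :=
  [code e (f (σ 0)), code e (f (σ 1)), code e (f (σ 2)), code e (f (σ 3)), code e (f (σ 4))]

theorem at_row (e : Fin 5 → ℕ) (σ : Equiv.Perm (Fin 5)) (f : Fin 5 → ℕ) (t : Fin 5) :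
    at' (row e σ f) t = code e (f (σ t)) := by
  fin_cases t <;> rfl

theorem nr_row (e : Fin 5 → ℕ) (σ : Equiv.Perm (Fin 5)) {f : Fin 5 → ℕ}
    (hf : Function.Injective f) : nr (row e σ f) = true := by
  have h : ∀ s t : Fin 5, s ≠ t → f (σ s) ≠ f (σ t) := fun s t hst h =>
    hst (σ.injective (hf h))
  unfold nr
  rw [List.all_eq_true]
  intro p hp
  have : ∃ s t : Fin 5, s ≠ t ∧ p = ((s : ℕ), (t : ℕ)) := by
    simp only [List.mem_cons, List.not_mem_nil, or_false] at hp
    rcases hp with h | h | h | h | h | h | h | h | h | h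
    · exact ⟨0, 1, by decide, h⟩
    · exact ⟨0, 2, by decide, h⟩
    · exact ⟨0, 3, by decide, h⟩
    · exact ⟨0, 4, by decide, h⟩
    · exact ⟨1, 2, by decide, h⟩
    · exact ⟨1, 3, by decide, h⟩
    · exact ⟨1, 4, by decide, h⟩
    · exact ⟨2, 3, by decide, h⟩
    · exact ⟨2, 4, by decide, h⟩
    · exact ⟨3, 4, by decide, h⟩
  obtain ⟨s, t, hst, rfl⟩ := this
  simp only [at_row]
  exact code_dif e (h s t hst)

theorem dj_row (e : Fin 5 → ℕ) (σ : Equiv.Perm (Fin 5)) {f g : Fin 5 → ℕ}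
    (hfg : ∀ i, f i ≠ g i) : dj (row e σ f) (row e σ g) = true := by
  unfold dj
  rw [List.all_eq_true]
  intro p hp
  have : ∃ s : Fin 5, p = (s : ℕ) := by
    simp only [List.mem_cons, List.not_mem_nil, or_false] at hp
    rcases hp with h | h | h | h | h
    · exact ⟨0, h⟩
    · exact ⟨1, h⟩
    · exact ⟨2, h⟩
    · exact ⟨3, h⟩
    · exact ⟨4, h⟩
  obtain ⟨s, rfl⟩ := this
  rw [at_row, at_row]
  exact code_dif e (hfg _)

theorem mk_testBit (x y z i : ℕ) :
    (mk x y z).testBit i = decide (i ∈ ({x, y, z} : Finset ℕ)) := by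
  unfold mk
  rw [Nat.testBit_or, Nat.testBit_or, Nat.one_shiftLeft, Nat.one_shiftLeft, Nat.one_shiftLeft,
    Nat.testBit_two_pow, Nat.testBit_two_pow, Nat.testBit_two_pow]
  by_cases h1 : x = i
  · simp [h1]
  · by_cases h2 : y = i
    · simp [h2]
    · by_cases h3 : z = i
      · simp [h3]
      · simp [h1, h2, h3, Ne.symm h1, Ne.symm h2, Ne.symm h3]

theorem mk_eq {x y z x' y' z' : ℕ} (h : ({x, y, z} : Finset ℕ) = {x', y', z'}) :
    mk x y z = mk x' y' z' := by
  apply Nat.eq_of_testBit_eq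
  intro i
  rw [mk_testBit, mk_testBit, h]

theorem trip_all : ∀ J : Finset (Fin 5), J.card = 3 →
    ∃ x y z : Fin 5, ((x : ℕ), (y : ℕ), (z : ℕ)) ∈ trip ∧ J = {x, y, z} := by
  decide +kernel

/-- The row with the codes `l`. -/
def unrow (e : Fin 5 → ℕ) (σ : Equiv.Perm (Fin 5)) (l : List ℕ) (i : Fin 5) : ℕ :=
  e (Fin.ofNat 5 (at' l (σ.symm i)))

theorem cand_prop : ∀ v ∈ cand, (∀ t : Fin 5, at' v t < 5) ∧
    ∀ s t : Fin 5, at' v s = at' v t → s = t := by
  decide +kernel

theorem unrow_apply (e : Fin 5 → ℕ) (σ : Equiv.Perm (Fin 5)) (l : List ℕ) (t : Fin 5) :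
    unrow e σ l (σ t) = e (Fin.ofNat 5 (at' l t)) := by
  unfold unrow
  rw [Equiv.symm_apply_apply]

theorem code_unrow {e : Fin 5 → ℕ} (he : Function.Injective e) (σ : Equiv.Perm (Fin 5))
    {v : List ℕ} (hv : v ∈ cand) (t : Fin 5) : code e (unrow e σ v (σ t)) = at' v t := by
  rw [unrow_apply, code_e he]
  simp only [Fin.ofNat, Nat.mod_eq_of_lt ((cand_prop v hv).1 t)]

theorem unrow_injective {e : Fin 5 → ℕ} (he : Function.Injective e) (σ : Equiv.Perm (Fin 5))
    {v : List ℕ} (hv : v ∈ cand) : Function.Injective (unrow e σ v) := by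
  intro i j h
  obtain ⟨s, rfl⟩ := σ.surjective i
  obtain ⟨t, rfl⟩ := σ.surjective j
  have h1 := congrArg (code e) h
  rw [code_unrow he σ hv, code_unrow he σ hv] at h1
  rw [(cand_prop v hv).2 s t h1]

theorem unrow_ne {e : Fin 5 → ℕ} (he : Function.Injective e) (σ : Equiv.Perm (Fin 5))
    {v : List ℕ} (hv : v ∈ cand) {f : Fin 5 → ℕ} (h : dj v (row e σ f) = true) (i : Fin 5) :
    unrow e σ v i ≠ f i := by
  obtain ⟨t, rfl⟩ := σ.surjective i
  intro heq
  have h1 := congrArg (code e) heq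
  rw [code_unrow he σ hv] at h1
  unfold dj at h
  rw [List.all_eq_true] at h
  have h2 := h t (by fin_cases t <;> simp)
  rw [at_row, h1, dif] at h2
  have h3 := (cand_prop v hv).1 t
  simp only [beq_self_eq_true, Bool.not_true, Bool.or_false, beq_iff_eq] at h2
  omega

theorem deadB_of_dead {e : Fin 5 → ℕ} (he : Function.Injective e) (σ : Equiv.Perm (Fin 5))
    {v : List ℕ} (hv : v ∈ cand) {f g : Fin 5 → ℕ} (h : Dead f g (unrow e σ v)) :
    deadB (row e σ f) (row e σ g) v = true := by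
  obtain ⟨I, hI, h1, h2⟩ := h
  obtain ⟨x, y, z, hmem, hJ⟩ := trip_all (I.map σ.symm.toEmbedding) (by rw [Finset.card_map, hI])
  have hI' : I = {σ x, σ y, σ z} := by
    have := congrArg (Finset.map σ.toEmbedding) hJ
    rw [Finset.map_map] at this
    simpa [Finset.map_insert] using this
  have key : ∀ f : Fin 5 → ℕ, (I.image f).image (code e) =
      {code e (f (σ x)), code e (f (σ y)), code e (f (σ z))} := by
    intro f
    rw [hI']
    simp [Finset.image_insert]
  have k1 : ({code e (f (σ x)), code e (f (σ y)), code e (f (σ z))} : Finset ℕ) =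
      {at' v x, at' v y, at' v z} := by
    rw [← key, h1, h2, key, code_unrow he σ hv, code_unrow he σ hv, code_unrow he σ hv]
  have k2 : ({code e (g (σ x)), code e (g (σ y)), code e (g (σ z))} : Finset ℕ) =
      {at' v x, at' v y, at' v z} := by
    rw [← key, h2, key, code_unrow he σ hv, code_unrow he σ hv, code_unrow he σ hv]
  unfold deadB
  rw [List.any_eq_true]
  refine ⟨_, hmem, ?_⟩
  simp only [at_row]
  rw [mk_eq k1, mk_eq k2]
  simp

/-- A good new row. -/
def Good (a b c : Fin 5 → ℕ) (L : Finset ℕ) (v : Fin 5 → ℕ) : Prop :=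
  Function.Injective v ∧ (∀ i, v i ∈ L) ∧ (∀ i, v i ≠ a i) ∧ (∀ i, v i ≠ b i) ∧ (∀ i, v i ≠ c i) ∧
    ¬ Dead a b v ∧ ¬ Dead a c v ∧ ¬ Dead b c v

theorem exists_perm : ∀ i j k : Fin 5, i ≠ j → i ≠ k → j ≠ k →
    ∃ σ : Equiv.Perm (Fin 5), σ 0 = i ∧ σ 1 = j ∧ σ 2 = k := by
  decide +kernel

theorem fix' {a b c v0 : Fin 5 → ℕ} (ha : Function.Injective a) (hb : Function.Injective b)
    (hc : Function.Injective c) (hab : ∀ i, a i ≠ b i) (hac : ∀ i, a i ≠ c i)
    (hbc : ∀ i, b i ≠ c i) {L : Finset ℕ} (hv : Function.Injective v0) (hvL : ∀ i, v0 i ∈ L)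
    (hvc : ∀ i, v0 i ≠ c i) {i j k : Fin 5} (hij : i ≠ j) (hik : i ≠ k) (hjk : j ≠ k)
    (b1 : b i = a j) (b2 : b j = a k) (b3 : b k = a i) (v1 : v0 i = a k) (v2 : v0 j = a i)
    (v3 : v0 k = a j) : ∃ v, Good a b c L v := by
  obtain ⟨σ, s0, s1, s2⟩ := exists_perm i j k hij hik hjk
  let ρ : Fin 5 → Fin 5 := ![1, 2, 0, 3, 4]
  have hρ : Function.Injective ρ := by decide
  let e : Fin 5 → ℕ := fun t => v0 (σ (ρ t))
  have he : Function.Injective e := hv.comp (σ.injective.comp hρ)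
  have e0 : e 0 = a i := by
    show v0 (σ 1) = a i
    rw [s1, v2]
  have e1 : e 1 = a j := by
    show v0 (σ 2) = a j
    rw [s2, v3]
  have e2 : e 2 = a k := by
    show v0 (σ 0) = a k
    rw [s0, v1]
  have c0 := code_e he 0
  have c1 := code_e he 1
  have c2 := code_e he 2
  rw [e0] at c0
  rw [e1] at c1
  rw [e2] at c2
  have big : ∀ x, x ≠ a i → x ≠ a j → x ≠ a k → code e x ∈ [3, 4, 5] := by
    intro x h0 h1 h2
    rcases code_cases e x with h | ⟨t, h, h'⟩
    · rw [h]; decide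
    · rw [h]
      fin_cases t
      · exact absurd (h'.trans e0) h0
      · exact absurd (h'.trans e1) h1
      · exact absurd (h'.trans e2) h2
      · decide
      · decide
  have all : ∀ x, code e x ∈ [0, 1, 2, 3, 4, 5] := by
    intro x
    rcases code_cases e x with h | ⟨t, h, h'⟩
    · rw [h]; decide
    · rw [h]
      fin_cases t <;> decide
  have hσ : ∀ s t : Fin 5, s ≠ t → σ s ≠ σ t := fun s t h h' => h (σ.injective h')
  have ra : row e σ a = [0, 1, 2, code e (a (σ 3)), code e (a (σ 4))] := by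
    unfold row
    rw [s0, s1, s2, c0, c1, c2]
    rfl
  have rb : row e σ b = [1, 2, 0, code e (b (σ 3)), code e (b (σ 4))] := by
    unfold row
    rw [s0, s1, s2, b1, b2, b3, c0, c1, c2]
    rfl
  have rc : row e σ c = [code e (c i), code e (c j), code e (c k), code e (c (σ 3)),
      code e (c (σ 4))] := by
    unfold row
    rw [s0, s1, s2]
  have a_ne : ∀ s : Fin 5, s ≠ 0 → s ≠ 1 → s ≠ 2 → a (σ s) ≠ a i ∧ a (σ s) ≠ a j ∧ a (σ s) ≠ a k := by
    intro s h0 h1 h2
    refine ⟨fun h => ?_, fun h => ?_, fun h => ?_⟩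
    · exact hσ s 0 h0 ((ha h).trans s0.symm)
    · exact hσ s 1 h1 ((ha h).trans s1.symm)
    · exact hσ s 2 h2 ((ha h).trans s2.symm)
  have b_ne : ∀ s : Fin 5, s ≠ 0 → s ≠ 1 → s ≠ 2 → b (σ s) ≠ a i ∧ b (σ s) ≠ a j ∧ b (σ s) ≠ a k := by
    intro s h0 h1 h2
    rw [← b1, ← b2, ← b3]
    refine ⟨fun h => ?_, fun h => ?_, fun h => ?_⟩
    · exact hσ s 2 h2 ((hb h).trans s2.symm)
    · exact hσ s 0 h0 ((hb h).trans s0.symm)
    · exact hσ s 1 h1 ((hb h).trans s1.symm)
  obtain ⟨p1, p2, p3⟩ := a_ne 3 (by decide) (by decide) (by decide)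
  obtain ⟨p4, p5, p6⟩ := a_ne 4 (by decide) (by decide) (by decide)
  obtain ⟨q1, q2, q3⟩ := b_ne 3 (by decide) (by decide) (by decide)
  obtain ⟨q4, q5, q6⟩ := b_ne 4 (by decide) (by decide) (by decide)
  obtain ⟨v, hvc', hgood⟩ := fin_main (code e (a (σ 3))) (code e (a (σ 4))) (code e (b (σ 3)))
    (code e (b (σ 4))) (code e (c i)) (code e (c j)) (code e (c k)) (code e (c (σ 3)))
    (code e (c (σ 4))) (big _ p1 p2 p3) (big _ p4 p5 p6) (big _ q1 q2 q3) (big _ q4 q5 q6)
    (big _ (fun h => hac i h.symm) (fun h => hbc i (b1.trans h.symm))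
      (fun h => hvc i (v1.trans h.symm)))
    (big _ (fun h => hvc j (v2.trans h.symm)) (fun h => hac j h.symm)
      (fun h => hbc j (b2.trans h.symm)))
    (big _ (fun h => hbc k (b3.trans h.symm)) (fun h => hvc k (v3.trans h.symm))
      (fun h => hac k h.symm)) (all _) (all _) (ra ▸ nr_row e σ ha) (rb ▸ nr_row e σ hb)
    (rc ▸ nr_row e σ hc) (ra ▸ rb ▸ dj_row e σ hab) (ra ▸ rc ▸ dj_row e σ hac)
    (rb ▸ rc ▸ dj_row e σ hbc)
  rw [← ra, ← rb, ← rc] at hgood
  unfold good at hgood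
  simp only [Bool.and_eq_true, Bool.not_eq_true'] at hgood
  obtain ⟨⟨⟨⟨⟨g1, g2⟩, g3⟩, g4⟩, g5⟩, g6⟩ := hgood
  refine ⟨unrow e σ v, unrow_injective he σ hvc', fun _ => hvL _, unrow_ne he σ hvc' g1,
    unrow_ne he σ hvc' g2, unrow_ne he σ hvc' g3, fun h => ?_, fun h => ?_, fun h => ?_⟩
  · rw [deadB_of_dead he σ hvc' h] at g4; exact absurd g4 (by decide)
  · rw [deadB_of_dead he σ hvc' h] at g5; exact absurd g5 (by decide)
  · rw [deadB_of_dead he σ hvc' h] at g6; exact absurd g6 (by decide)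

theorem fix {a b c v0 : Fin 5 → ℕ} (ha : Function.Injective a) (hb : Function.Injective b)
    (hc : Function.Injective c) (hab : ∀ i, a i ≠ b i) (hac : ∀ i, a i ≠ c i)
    (hbc : ∀ i, b i ≠ c i) {L : Finset ℕ} (hv : Function.Injective v0) (hvL : ∀ i, v0 i ∈ L)
    (hva : ∀ i, v0 i ≠ a i) (hvb : ∀ i, v0 i ≠ b i) (hvc : ∀ i, v0 i ≠ c i)
    (hd : Dead a b v0) : ∃ v, Good a b c L v := by
  obtain ⟨I, hI, h1, h2⟩ := hd
  obtain ⟨i, j, k, hij, hik, hjk, rfl⟩ := Finset.card_eq_three.mp hI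
  have mb : ∀ t ∈ ({i, j, k} : Finset (Fin 5)), b t = a i ∨ b t = a j ∨ b t = a k := by
    intro t ht
    have := Finset.mem_image_of_mem b ht
    rw [← h1] at this
    simpa using this
  have mv : ∀ t ∈ ({i, j, k} : Finset (Fin 5)), v0 t = a i ∨ v0 t = a j ∨ v0 t = a k := by
    intro t ht
    have := Finset.mem_image_of_mem v0 ht
    rw [← h2, ← h1] at this
    simpa using this
  have i1 : i ∈ ({i, j, k} : Finset (Fin 5)) := by simp
  have j1 : j ∈ ({i, j, k} : Finset (Fin 5)) := by simp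
  have k1 : k ∈ ({i, j, k} : Finset (Fin 5)) := by simp
  rcases mb i i1 with h | h | h
  · exact absurd h.symm (hab i)
  · -- `b i = a j`
    have b3 : b k = a i := by
      rcases mb k k1 with h' | h' | h'
      · exact h'
      · exact absurd (hb (h.trans h'.symm)) hik
      · exact absurd h'.symm (hab k)
    have b2 : b j = a k := by
      rcases mb j j1 with h' | h' | h'
      · exact absurd (hb (h'.trans b3.symm)) hjk
      · exact absurd h'.symm (hab j)
      · exact h'
    have v1 : v0 i = a k := by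
      rcases mv i i1 with h' | h' | h'
      · exact absurd h' (hva i)
      · exact absurd (h'.trans h.symm) (hvb i)
      · exact h'
    have v2 : v0 j = a i := by
      rcases mv j j1 with h' | h' | h'
      · exact h'
      · exact absurd h' (hva j)
      · exact absurd (h'.trans b2.symm) (hvb j)
    have v3 : v0 k = a j := by
      rcases mv k k1 with h' | h' | h'
      · exact absurd (h'.trans b3.symm) (hvb k)
      · exact h'
      · exact absurd h' (hva k)
    exact fix' ha hb hc hab hac hbc hv hvL hvc hij hik hjk h b2 b3 v1 v2 v3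
  · -- `b i = a k`
    have b3 : b j = a i := by
      rcases mb j j1 with h' | h' | h'
      · exact h'
      · exact absurd h'.symm (hab j)
      · exact absurd (hb (h.trans h'.symm)) hij
    have b2 : b k = a j := by
      rcases mb k k1 with h' | h' | h'
      · exact absurd (hb (h'.trans b3.symm)) hjk.symm
      · exact h'
      · exact absurd h'.symm (hab k)
    have v1 : v0 i = a j := by
      rcases mv i i1 with h' | h' | h'
      · exact absurd h' (hva i)
      · exact h'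
      · exact absurd (h'.trans h.symm) (hvb i)
    have v2 : v0 k = a i := by
      rcases mv k k1 with h' | h' | h'
      · exact h'
      · exact absurd (h'.trans b2.symm) (hvb k)
      · exact absurd h' (hva k)
    have v3 : v0 j = a k := by
      rcases mv j j1 with h' | h' | h'
      · exact absurd (h'.trans b3.symm) (hvb j)
      · exact absurd h' (hva j)
      · exact h'
    exact fix' ha hb hc hab hac hbc hv hvL hvc hik hij hjk.symm h b2 b3 v1 v2 v3

/-- A new row at a triangle whose rows are not blocked. -/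
theorem ext {a b c : Fin 5 → ℕ} (ha : Function.Injective a) (hb : Function.Injective b)
    (hc : Function.Injective c) (hab : ∀ i, a i ≠ b i) (hac : ∀ i, a i ≠ c i)
    (hbc : ∀ i, b i ≠ c i) (hd : ¬ Dead a b c) {L : Finset ℕ} (hL : L.card = 5) :
    ∃ v, Good a b c L v := by
  obtain ⟨v, hv, hvL, va, vb, vc⟩ := hall ha hb hc hd hL
  by_cases h1 : Dead a b v
  · exact fix ha hb hc hab hac hbc hv hvL va vb vc h1
  by_cases h2 : Dead a c v
  · obtain ⟨w, w1, w2, w3, w4, w5, w6, w7, w8⟩ :=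
      fix ha hc hb hac hab (fun i => (hbc i).symm) hv hvL va vc vb h2
    exact ⟨w, w1, w2, w3, w5, w4, w7, w6, fun h => w8 h.swap⟩
  by_cases h3 : Dead b c v
  · obtain ⟨w, w1, w2, w3, w4, w5, w6, w7, w8⟩ :=
      fix hb hc ha hbc (fun i => (hab i).symm) (fun i => (hac i).symm) hv hvL vb vc va h3
    exact ⟨w, w1, w2, w5, w3, w4, fun h => w7 h.swap, fun h => w8 h.swap, w6⟩
  exact ⟨v, hv, hvL, va, vb, vc, h1, h2, h3⟩

end Pool.Agent.H45.Tw
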