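import Mathlib

set_option autoImplicit false

/-!
# The finite check for list packing at a triangle with five colours

Colours of the new vertex are `0, …, 4`; `5` stands for a colour outside its list. The first two
rows start with `0 1 2` and `1 2 0`.
-/

namespace Pool.Agent.H45.Tw

/-- The triples of positions. -/
def trip : List (ℕ × ℕ × ℕ) :=
  [(0, 1, 2), (0, 1, 3), (0, 1, 4), (0, 2, 3), (0, 2, 4), (0, 3, 4), (1, 2, 3), (1, 2, 4), (1, 3, 4),
    (2, 3, 4)]

/-- The entry at position `i`. -/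
def at' (l : List ℕ) (i : ℕ) : ℕ := l.getD i 9

/-- The set of three numbers as a bit mask. -/
def mk (x y z : ℕ) : ℕ := (1 <<< x) ||| (1 <<< y) ||| (1 <<< z)

/-- Three rows use the same three colours at three positions. -/
def deadB (a b v : List ℕ) : Bool :=
  trip.any fun t =>
    (mk (at' a t.1) (at' a t.2.1) (at' a t.2.2) == mk (at' v t.1) (at' v t.2.1) (at' v t.2.2)) &&
    (mk (at' b t.1) (at' b t.2.1) (at' b t.2.2) == mk (at' v t.1) (at' v t.2.1) (at' v t.2.2))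

/-- Different, or both outside the list. -/
def dif (x y : ℕ) : Bool := x == 5 || !(x == y)

/-- Rows which differ everywhere. -/
def dj (a b : List ℕ) : Bool :=
  [0, 1, 2, 3, 4].all fun i => dif (at' a i) (at' b i)

/-- Rows without repeated colours. -/
def nr (a : List ℕ) : Bool :=
  [(0, 1), (0, 2), (0, 3), (0, 4), (1, 2), (1, 3), (1, 4), (2, 3), (2, 4), (3, 4)].all
    fun t => dif (at' a t.1) (at' a t.2)

/-- The four candidates for the new row. -/
def cand : List (List ℕ) := [[4, 3, 1, 2, 0], [3, 4, 1, 0, 2], [4, 3, 1, 0, 2], [3, 4, 1, 2, 0]]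

/-- The new row is good. -/
def good (a b c v : List ℕ) : Bool :=
  dj v a && dj v b && dj v c && !deadB a b v && !deadB a c v && !deadB b c v

/-- The check. -/
def chk : Bool :=
  [3, 4, 5].all fun a3 => [3, 4, 5].all fun a4 => !nr [0, 1, 2, a3, a4] ||
    [3, 4, 5].all fun b3 => [3, 4, 5].all fun b4 =>
      !nr [1, 2, 0, b3, b4] || !dj [0, 1, 2, a3, a4] [1, 2, 0, b3, b4] ||
      [3, 4, 5].all fun c0 => [3, 4, 5].all fun c1 => [3, 4, 5].all fun c2 =>
        [0, 1, 2, 3, 4, 5].all fun c3 => [0, 1, 2, 3, 4, 5].all fun c4 =>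
          !nr [c0, c1, c2, c3, c4] || !dj [0, 1, 2, a3, a4] [c0, c1, c2, c3, c4] ||
          !dj [1, 2, 0, b3, b4] [c0, c1, c2, c3, c4] ||
          cand.any fun v => good [0, 1, 2, a3, a4] [1, 2, 0, b3, b4] [c0, c1, c2, c3, c4] v

theorem chk_true : chk = true := by decide +kernel

theorem fin_main (a3 a4 b3 b4 c0 c1 c2 c3 c4 : ℕ) (h1 : a3 ∈ [3, 4, 5]) (h2 : a4 ∈ [3, 4, 5])
    (h3 : b3 ∈ [3, 4, 5]) (h4 : b4 ∈ [3, 4, 5]) (h5 : c0 ∈ [3, 4, 5]) (h6 : c1 ∈ [3, 4, 5])
    (h7 : c2 ∈ [3, 4, 5]) (h8 : c3 ∈ [0, 1, 2, 3, 4, 5]) (h9 : c4 ∈ [0, 1, 2, 3, 4, 5])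
    (na : nr [0, 1, 2, a3, a4] = true) (nb : nr [1, 2, 0, b3, b4] = true)
    (nc : nr [c0, c1, c2, c3, c4] = true)
    (dab : dj [0, 1, 2, a3, a4] [1, 2, 0, b3, b4] = true)
    (dac : dj [0, 1, 2, a3, a4] [c0, c1, c2, c3, c4] = true)
    (dbc : dj [1, 2, 0, b3, b4] [c0, c1, c2, c3, c4] = true) :
    ∃ v ∈ cand, good [0, 1, 2, a3, a4] [1, 2, 0, b3, b4] [c0, c1, c2, c3, c4] v = true := by
  have h := chk_true
  unfold chk at h
  have g1 := List.all_eq_true.mp (List.all_eq_true.mp h a3 h1) a4 h2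
  rw [na, Bool.not_true, Bool.false_or] at g1
  have g2 := List.all_eq_true.mp (List.all_eq_true.mp g1 b3 h3) b4 h4
  rw [nb, dab, Bool.not_true, Bool.false_or, Bool.false_or] at g2
  have g3 := List.all_eq_true.mp (List.all_eq_true.mp (List.all_eq_true.mp
    (List.all_eq_true.mp (List.all_eq_true.mp g2 c0 h5) c1 h6) c2 h7) c3 h8) c4 h9
  rw [nc, dac, dbc, Bool.not_true, Bool.false_or, Bool.false_or, Bool.false_or] at g3
  exact List.any_eq_true.mp g3

end Pool.Agent.H45.Tw
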