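import Pool.Agent.H45.Tw.Fin

set_option autoImplicit false

/-!
# A first new row, from Hall's theorem
-/

namespace Pool.Agent.H45.Tw

open Finset

/-- Three rows use the same three colours at three positions. -/
def Dead (a b c : Fin 5 → ℕ) : Prop :=
  ∃ I : Finset (Fin 5), I.card = 3 ∧ I.image a = I.image b ∧ I.image b = I.image c

theorem Dead.rot {a b c : Fin 5 → ℕ} (h : Dead a b c) : Dead b c a := by
  obtain ⟨I, h1, h2, h3⟩ := h
  exact ⟨I, h1, h3, h3.symm.trans h2.symm⟩

theorem Dead.swap {a b c : Fin 5 → ℕ} (h : Dead a b c) : Dead b a c := by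
  obtain ⟨I, h1, h2, h3⟩ := h
  exact ⟨I, h1, h2.symm, h2.trans h3⟩

theorem card_eq_one_le {a : Fin 5 → ℕ} (ha : Function.Injective a) (x : ℕ) (S : Finset (Fin 5)) :
    (S.filter fun i => a i = x).card ≤ 1 := by
  rw [Finset.card_le_one]
  intro i hi j hj
  rw [Finset.mem_filter] at hi hj
  exact ha (hi.2.trans hj.2.symm)

theorem hall {a b c : Fin 5 → ℕ} (ha : Function.Injective a) (hb : Function.Injective b)
    (hc : Function.Injective c) (hd : ¬ Dead a b c) {L : Finset ℕ} (hL : L.card = 5) :
    ∃ v : Fin 5 → ℕ, Function.Injective v ∧ (∀ i, v i ∈ L) ∧ (∀ i, v i ≠ a i) ∧ (∀ i, v i ≠ b i) ∧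
      ∀ i, v i ≠ c i := by
  let F : Fin 5 → Finset ℕ := fun i => L.filter fun x => x ≠ a i ∧ x ≠ b i ∧ x ≠ c i
  have hF : ∀ i, L \ F i ⊆ {a i, b i, c i} := by
    intro i x hx
    simp only [F, Finset.mem_sdiff, Finset.mem_filter, not_and, Finset.mem_insert,
      Finset.mem_singleton] at hx ⊢
    by_contra hcon
    push Not at hcon
    exact (hx.2 hx.1 hcon.1 hcon.2.1) hcon.2.2
  have hFL : ∀ i, F i ⊆ L := fun i => Finset.filter_subset _ _
  have hF3 : ∀ i, (L \ F i).card ≤ 3 := fun i =>
    (Finset.card_le_card (hF i)).trans Finset.card_le_three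
  have hF2 : ∀ i, 2 ≤ (F i).card := by
    intro i
    have h1 := hF3 i
    have h2 := Finset.card_sdiff_add_card_eq_card (hFL i)
    omega
  have key : ∀ S : Finset (Fin 5), S.card ≤ (S.biUnion F).card := by
    intro S
    rcases Nat.eq_zero_or_pos S.card with h0 | hpos
    · omega
    obtain ⟨i0, hi0⟩ := Finset.card_pos.mp hpos
    have hsub : ∀ i ∈ S, F i ⊆ S.biUnion F := fun i hi => Finset.subset_biUnion_of_mem F hi
    have hN2 : 2 ≤ (S.biUnion F).card := (hF2 i0).trans (Finset.card_le_card (hsub i0 hi0))
    by_contra hlt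
    push Not at hlt
    have hNL : S.biUnion F ⊆ L := by
      intro x hx
      obtain ⟨i, _, hi⟩ := Finset.mem_biUnion.mp hx
      exact hFL i hi
    have hS5 : S.card ≤ 5 := by
      have := Finset.card_le_univ S
      simpa using this
    by_cases h3 : S.card = 3
    · have hN : (S.biUnion F).card = 2 := by omega
      have hFi : ∀ i ∈ S, F i = S.biUnion F := fun i hi =>
        Finset.eq_of_subset_of_card_le (hsub i hi) (by rw [hN]; exact hF2 i)
      have hC : (L \ S.biUnion F).card = 3 := by
        have := Finset.card_sdiff_add_card_eq_card hNL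
        omega
      have hsub3 : ∀ i ∈ S, L \ S.biUnion F = {a i, b i, c i} := by
        intro i hi
        apply Finset.eq_of_subset_of_card_le
        · rw [← hFi i hi]; exact hF i
        · rw [hC]; exact Finset.card_le_three
      have him : ∀ f : Fin 5 → ℕ, Function.Injective f → (∀ i ∈ S, f i ∈ L \ S.biUnion F) →
          S.image f = L \ S.biUnion F := by
        intro f hf hm
        apply Finset.eq_of_subset_of_card_le
        · intro x hx
          obtain ⟨i, hi, rfl⟩ := Finset.mem_image.mp hx
          exact hm i hi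
        · rw [Finset.card_image_of_injective _ hf, hC, h3]
      have ia := him a ha (fun i hi => by rw [hsub3 i hi]; simp)
      have ib := him b hb (fun i hi => by rw [hsub3 i hi]; simp)
      have ic := him c hc (fun i hi => by rw [hsub3 i hi]; simp)
      exact hd ⟨S, h3, ia.trans ib.symm, ib.trans ic.symm⟩
    · have h4 : 4 ≤ S.card := by omega
      have hall : L ⊆ S.biUnion F := by
        intro x hx
        by_contra hcon
        have hall' : ∀ i ∈ S, x = a i ∨ x = b i ∨ x = c i := by
          intro i hi
          have : x ∉ F i := fun h => hcon (hsub i hi h)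
          have hx' : x ∈ L \ F i := Finset.mem_sdiff.mpr ⟨hx, this⟩
          simpa using hF i hx'
        have hcov : S ⊆ (S.filter fun i => a i = x) ∪ ((S.filter fun i => b i = x) ∪
            (S.filter fun i => c i = x)) := by
          intro i hi
          simp only [Finset.mem_union, Finset.mem_filter]
          rcases hall' i hi with h | h | h
          · exact Or.inl ⟨hi, h.symm⟩
          · exact Or.inr (Or.inl ⟨hi, h.symm⟩)
          · exact Or.inr (Or.inr ⟨hi, h.symm⟩)
        have h1 := Finset.card_le_card hcov
        have h2 := Finset.card_union_le (S.filter fun i => a i = x)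
          ((S.filter fun i => b i = x) ∪ (S.filter fun i => c i = x))
        have h3' := Finset.card_union_le (S.filter fun i => b i = x) (S.filter fun i => c i = x)
        have e1 := card_eq_one_le ha x S
        have e2 := card_eq_one_le hb x S
        have e3 := card_eq_one_le hc x S
        omega
      have := Finset.card_le_card hall
      omega
  obtain ⟨v, hv, hvF⟩ := (Finset.all_card_le_biUnion_card_iff_exists_injective F).mp key
  refine ⟨v, hv, fun i => hFL i (hvF i), ?_, ?_, ?_⟩ <;>
  · intro i
    have := (Finset.mem_filter.mp (hvF i)).2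
    first | exact this.1 | exact this.2.1 | exact this.2.2

end Pool.Agent.H45.Tw
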