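import Pool.Agent.H45.Apo.Upper
import Pool.Graph.R_seed8.TH455.Upper

set_option autoImplicit false

/-!
# A planar 3-tree with lists of four colours without packing
-/

namespace Pool.Agent.H45.Tw

open Pool.Agent.TH455 Pool.Agent.H45.Apo

/-- Gadget trees: the list of the vertex stacked into a triangle, and the three subtrees. -/
inductive LT : Type
  | leaf : LT
  | node (X : List ℕ) (t1 t2 t3 : LT) : LT

/-- The arrangements of four positions. -/
def ix : List (List ℕ) :=
  [[0, 1, 2, 3], [0, 1, 3, 2], [0, 2, 1, 3], [0, 2, 3, 1], [0, 3, 1, 2], [0, 3, 2, 1],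
    [1, 0, 2, 3], [1, 0, 3, 2], [1, 2, 0, 3], [1, 2, 3, 0], [1, 3, 0, 2], [1, 3, 2, 0],
    [2, 0, 1, 3], [2, 0, 3, 1], [2, 1, 0, 3], [2, 1, 3, 0], [2, 3, 0, 1], [2, 3, 1, 0],
    [3, 0, 1, 2], [3, 0, 2, 1], [3, 1, 0, 2], [3, 1, 2, 0], [3, 2, 0, 1], [3, 2, 1, 0]]

/-- The arrangements of a list of four colours. -/
def rows (X : List ℕ) : List (List ℕ) := ix.map fun s => s.map fun i => X.getD i 9

/-- Rows which differ at all four positions. -/
def dj4 (a b : List ℕ) : Bool :=
  [0, 1, 2, 3].all fun i => !(a.getD i 9 == b.getD i 9)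

/-- The rows `p, q, r` at the corners do not extend to the tree. -/
def killB : LT → List ℕ → List ℕ → List ℕ → Bool
  | .leaf, _, _, _ => false
  | .node X t1 t2 t3, p, q, r => (rows X).all fun v =>
      !(dj4 v p && dj4 v q && dj4 v r) || killB t1 p q v || killB t2 p r v || killB t3 q r v

/-- The subtree of a child. -/
def child' : Fin 3 → LT → LT
  | _, .leaf => .leaf
  | 0, .node _ t1 _ _ => t1
  | 1, .node _ _ t2 _ => t2
  | 2, .node _ _ _ t3 => t3

/-- The subtree stacked into the triangle with address `l`. -/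
def sub' (t : LT) : List (Fin 3) → LT
  | [] => t
  | i :: l => child' i (sub' t l)

/-- The list at the root. -/
def top : LT → List ℕ
  | .leaf => [0, 1, 2, 3]
  | .node X _ _ _ => X

/-- The depth of a tree. -/
def depth' : LT → ℕ
  | .leaf => 0
  | .node _ t1 t2 t3 => max (depth' t1) (max (depth' t2) (depth' t3)) + 1

/-- The lists used are lists of four different colours. -/
def ok4 : LT → Bool
  | .leaf => true
  | .node X t1 t2 t3 => X.length == 4 && X.Nodup && ok4 t1 && ok4 t2 && ok4 t3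

theorem ok4_top {t : LT} (h : ok4 t = true) : (top t).length = 4 ∧ (top t).Nodup := by
  cases t with
  | leaf => exact ⟨rfl, by decide⟩
  | node X t1 t2 t3 =>
    simp only [ok4, Bool.and_eq_true, beq_iff_eq, decide_eq_true_eq] at h
    exact ⟨h.1.1.1.1, h.1.1.1.2⟩

theorem ok4_sub {t : LT} (h : ok4 t = true) (l : List (Fin 3)) : ok4 (sub' t l) = true := by
  induction l with
  | nil => exact h
  | cons i l ih =>
    show ok4 (child' i (sub' t l)) = true
    cases hs : sub' t l with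
    | leaf => fin_cases i <;> rfl
    | node X t1 t2 t3 =>
      rw [hs] at ih
      simp only [ok4, Bool.and_eq_true] at ih
      fin_cases i
      · exact ih.1.1.2
      · exact ih.1.2
      · exact ih.2

theorem ix_all : ∀ s : Fin 4 → Fin 4, Function.Injective s →
    [(s 0 : ℕ), (s 1 : ℕ), (s 2 : ℕ), (s 3 : ℕ)] ∈ ix := by
  decide +kernel

theorem mem_rows {X : List ℕ} (h4 : X.length = 4) (f : Fin 4 → ℕ)
    (hf : Function.Injective f) (hX : ∀ i, f i ∈ X) : [f 0, f 1, f 2, f 3] ∈ rows X := by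
  have : ∀ i, ∃ s : Fin 4, X.getD s 9 = f i := by
    intro i
    obtain ⟨n, hn, hn'⟩ := List.getElem_of_mem (hX i)
    refine ⟨⟨n, h4 ▸ hn⟩, ?_⟩
    rw [← hn']
    simp [List.getD_eq_getElem?_getD, hn]
  choose s hs using this
  have hinj : Function.Injective s := by
    intro i j hij
    apply hf
    rw [← hs, ← hs, hij]
  unfold rows
  rw [List.mem_map]
  refine ⟨_, ix_all s hinj, ?_⟩
  simp only [List.map_cons, List.map_nil, hs]

theorem dj4_of {f g : Fin 4 → ℕ} (h : ∀ i, f i ≠ g i) :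
    dj4 [f 0, f 1, f 2, f 3] [g 0, g 1, g 2, g 3] = true := by
  have h0 := h 0
  have h1 := h 1
  have h2 := h 2
  have h3 := h 3
  simp [dj4, h0, h1, h2, h3]

/-- The row of a vertex. -/
def rw4 (π : W → Fin 4 → ℕ) (w : W) : List ℕ := [π w 0, π w 1, π w 2, π w 3]

theorem not_killB (t : LT) (ht : ok4 t = true) (d : ℕ) (π : W → Fin 4 → ℕ)
    (h1 : ∀ l, l.length + 1 ≤ d → Function.Injective (π (Sum.inr l)) ∧
      ∀ i, π (Sum.inr l) i ∈ top (sub' t l))
    (h2 : ∀ l m, l.length + 1 ≤ d → ∀ i, π (Sum.inr l) i ≠ π (cor l m) i)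
    (s : LT) : ∀ l, sub' t l = s → l.length + depth' s ≤ d →
      killB s (rw4 π (cor l 0)) (rw4 π (cor l 1)) (rw4 π (cor l 2)) ≠ true := by
  induction s with
  | leaf => intro l _ _ h; exact absurd h (by simp [killB])
  | node X t1 t2 t3 i1 i2 i3 =>
    intro l hl hd hk
    have hd' : l.length + 1 ≤ d := by
      simp only [depth'] at hd
      omega
    obtain ⟨e1, e2⟩ := h1 l hd'
    have hX := ok4_top (ok4_sub ht l)
    rw [hl] at e2 hX
    simp only [killB] at hk
    rw [List.all_eq_true] at hk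
    have hk' := hk _ (mem_rows hX.1 _ e1 e2)
    have d0 : dj4 (rw4 π (Sum.inr l)) (rw4 π (cor l 0)) = true := dj4_of (h2 l 0 hd')
    have d1 : dj4 (rw4 π (Sum.inr l)) (rw4 π (cor l 1)) = true := dj4_of (h2 l 1 hd')
    have d2 : dj4 (rw4 π (Sum.inr l)) (rw4 π (cor l 2)) = true := dj4_of (h2 l 2 hd')
    change (!(dj4 (rw4 π (Sum.inr l)) (rw4 π (cor l 0)) &&
      dj4 (rw4 π (Sum.inr l)) (rw4 π (cor l 1)) && dj4 (rw4 π (Sum.inr l)) (rw4 π (cor l 2))) ||
      killB t1 (rw4 π (cor l 0)) (rw4 π (cor l 1)) (rw4 π (Sum.inr l)) ||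
      killB t2 (rw4 π (cor l 0)) (rw4 π (cor l 2)) (rw4 π (Sum.inr l)) ||
      killB t3 (rw4 π (cor l 1)) (rw4 π (cor l 2)) (rw4 π (Sum.inr l))) = true at hk'
    rw [d0, d1, d2] at hk'
    simp only [Bool.and_self, Bool.not_true, Bool.false_or, Bool.or_eq_true] at hk'
    rcases hk' with (h | h) | h
    · refine i1 (0 :: l) (by simp only [sub', hl, child']) ?_ h
      simp only [depth', List.length_cons] at hd ⊢
      omega
    · refine i2 (1 :: l) (by simp only [sub', hl, child']) ?_ h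
      simp only [depth', List.length_cons] at hd ⊢
      omega
    · refine i3 (2 :: l) (by simp only [sub', hl, child']) ?_ h
      simp only [depth', List.length_cons] at hd ⊢
      omega

/-- The lists of the vertices. -/
def lists (A B C : List ℕ) (t : LT) : W → List ℕ
  | Sum.inl 0 => A
  | Sum.inl 1 => B
  | Sum.inl 2 => C
  | Sum.inr l => top (sub' t l)

/-- All choices of rows at the outer triangle are killed. -/
def allKill (A B C : List ℕ) (t : LT) : Bool :=
  (rows A).all fun p => (rows B).all fun q => !dj4 p q ||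
    (rows C).all fun r => !dj4 p r || !dj4 q r || killB t p q r

theorem not_listPackable_of (A B C : List ℕ) (hA : A.length = 4 ∧ A.Nodup)
    (hB : B.length = 4 ∧ B.Nodup) (hC : C.length = 4 ∧ C.Nodup) (t : LT) (ht : ok4 t = true)
    (hk : allKill A B C t = true) (d : ℕ) (hd : depth' t ≤ d) : ¬ ListPackable (Net d) 4 := by
  classical
  intro H
  have hok : ∀ w, (lists A B C t w).length = 4 ∧ (lists A B C t w).Nodup := by
    intro w
    rcases w with i | l
    · fin_cases i
      · exact hA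
      · exact hB
      · exact hC
    · exact ok4_top (ok4_sub ht l)
  obtain ⟨c, c1, c2, c3⟩ := H (fun v => (lists A B C t v.1).toFinset) (fun v => by
    rw [List.toFinset_card_of_nodup (hok v.1).2, (hok v.1).1])
  let π : W → Fin 4 → ℕ := fun w i => if hw : level w ≤ d then c i ⟨w, hw⟩ else 0
  have hπ : ∀ (w : W) (hw : level w ≤ d) (i : Fin 4), π w i = c i ⟨w, hw⟩ := by
    intro w hw i
    simp only [π, dif_pos hw]
  have hinj : ∀ (w : W), level w ≤ d → Function.Injective (π w) ∧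
      ∀ i, π w i ∈ lists A B C t w := by
    intro w hw
    refine ⟨fun i j hij => ?_, fun i => ?_⟩
    · rw [hπ w hw, hπ w hw] at hij
      by_contra hne
      exact c3 ⟨w, hw⟩ i j hne hij
    · rw [hπ w hw]
      exact List.mem_toFinset.mp (c1 i ⟨w, hw⟩)
  have hdis : ∀ (u w : W) (hu : level u ≤ d) (hw : level w ≤ d), adjW u w →
      ∀ i, π u i ≠ π w i := by
    intro u w hu hw h i
    rw [hπ u hu, hπ w hw]
    exact c2 i ⟨u, hu⟩ ⟨w, hw⟩ h
  have l0 : ∀ i : Fin 3, level (Sum.inl i : W) ≤ d := fun i => Nat.zero_le _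
  have ho : ∀ i j : Fin 3, i ≠ j → adjW (Sum.inl i) (Sum.inl j) := fun i j h =>
    Or.inl ⟨i, j, h, rfl, rfl⟩
  refine not_killB t ht d π (fun l hl => hinj _ hl) (fun l m hl => hdis _ _ hl
    ((level_cor l m).trans (Nat.le_of_succ_le hl)) (Or.inr (Or.inl ⟨l, m, rfl, rfl⟩))) t [] rfl
    (by simpa using hd) ?_
  unfold allKill at hk
  rw [List.all_eq_true] at hk
  have k1 := hk _ (mem_rows hA.1 _ (hinj (Sum.inl 0) (l0 0)).1 (hinj (Sum.inl 0) (l0 0)).2)
  rw [List.all_eq_true] at k1
  have k2 := k1 _ (mem_rows hB.1 _ (hinj (Sum.inl 1) (l0 1)).1 (hinj (Sum.inl 1) (l0 1)).2)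
  rw [dj4_of (hdis _ _ (l0 0) (l0 1) (ho 0 1 (by decide))), Bool.not_true, Bool.false_or,
    List.all_eq_true] at k2
  have k3 := k2 _ (mem_rows hC.1 _ (hinj (Sum.inl 2) (l0 2)).1 (hinj (Sum.inl 2) (l0 2)).2)
  rw [dj4_of (hdis _ _ (l0 0) (l0 2) (ho 0 2 (by decide))),
    dj4_of (hdis _ _ (l0 1) (l0 2) (ho 1 2 (by decide))), Bool.not_true, Bool.false_or,
    Bool.false_or] at k3
  exact k3

/-- The leaf. -/
abbrev o : LT := .leaf

/-- A part of the gadget. -/
def part : LT :=
  .node [0, 1, 2, 4] o (.node [1, 2, 3, 4] o o o)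
    (.node [0, 2, 3, 4] (.node [0, 2, 3, 4] o o o) o (.node [0, 1, 2, 3] o o o))

/-- The gadget. -/
def gadget : LT := .node [0, 2, 3, 4] part part o

theorem gadget_kills : allKill [1, 2, 3, 4] [0, 1, 3, 4] [0, 1, 3, 4] gadget = true := by
  decide +kernel

theorem net_not_four (d : ℕ) (hd : 4 ≤ d) : ¬ ListPackable (Net d) 4 :=
  not_listPackable_of [1, 2, 3, 4] [0, 1, 3, 4] [0, 1, 3, 4] (by decide) (by decide) (by decide)
    gadget (by decide) gadget_kills d hd

end Pool.Agent.H45.Tw
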