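import Pool.Agent.H45.Tw.Order
import Pool.Agent.H45.Tw.Lower
import Pool.Agent.H45.Apo.Draw

set_option autoImplicit false

/-!
# The planar 3-trees `Net d` have treewidth at most three
-/

namespace Pool.Agent.H45.Tw

open Pool.Agent.TH455 Pool.Agent.H45.Apo

/-- A code of an address. -/
def cd : List (Fin 3) → ℕ
  | [] => 3
  | k :: l => 3 * cd l + k

/-- A position of a vertex in an elimination order. -/
def pos : W → ℕ
  | Sum.inl i => i
  | Sum.inr l => cd l

theorem cd_ge (l : List (Fin 3)) : 3 ≤ cd l := by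
  induction l with
  | nil => exact le_rfl
  | cons k l ih => simp only [cd]; omega

theorem cd_injective : ∀ l l' : List (Fin 3), cd l = cd l' → l = l' := by
  intro l
  induction l with
  | nil =>
    intro l' h
    cases l' with
    | nil => rfl
    | cons k l' =>
      have := cd_ge l'
      simp only [cd] at h
      omega
  | cons k l ih =>
    intro l' h
    cases l' with
    | nil =>
      have := cd_ge l
      simp only [cd] at h
      omega
    | cons k' l' =>
      simp only [cd] at h
      have hk : (k : ℕ) = k' := by omega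
      have hl : cd l = cd l' := by omega
      rw [Fin.ext hk, ih l' hl]

theorem pos_injective : Function.Injective pos := by
  intro u v h
  rcases u with i | l <;> rcases v with j | l'
  · simp only [pos] at h
    rw [Fin.ext h]
  · have := cd_ge l'
    simp only [pos] at h
    omega
  · have := cd_ge l
    simp only [pos] at h
    omega
  · simp only [pos] at h
    rw [cd_injective _ _ h]

theorem pos_cor (l : List (Fin 3)) : ∀ i, pos (cor l i) < cd l := by
  induction l with
  | nil =>
    intro i
    simp only [cor, pos, cd]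
    exact i.2
  | cons k l ih =>
    intro i
    have h3 := cd_ge l
    by_cases hi : i = 2
    · subst hi
      rw [cor_two]
      simp only [pos, cd]
      omega
    · rw [cor_sel _ _ _ hi]
      have := ih (sel k i)
      simp only [cd]
      omega

theorem adj_cor (l : List (Fin 3)) : ∀ i j, i ≠ j → adjW (cor l i) (cor l j) := by
  induction l with
  | nil => intro i j h; exact Or.inl ⟨i, j, h, rfl, rfl⟩
  | cons k l ih =>
    intro i j hij
    by_cases hi : i = 2
    · subst hi
      rw [cor_two, cor_sel _ _ _ hij.symm]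
      exact Or.inr (Or.inl ⟨l, _, rfl, rfl⟩)
    · by_cases hj : j = 2
      · subst hj
        rw [cor_two, cor_sel _ _ _ hi]
        exact Or.inr (Or.inr ⟨l, _, rfl, rfl⟩)
      · rw [cor_sel _ _ _ hi, cor_sel _ _ _ hj]
        apply ih
        intro h
        have h01 : ∀ i : Fin 3, i ≠ 2 → i = 0 ∨ i = 1 := by decide
        have hs := sel_ne k
        rcases h01 i hi with rfl | rfl <;> rcases h01 j hj with rfl | rfl
        · exact hij rfl
        · exact hs h
        · exact hs h.symm
        · exact hij rfl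

/-- The three earlier neighbours of a vertex. -/
def below : W → Fin 3 → W
  | Sum.inl _, i => Sum.inl i
  | Sum.inr l, i => cor l i

theorem exists_below {u v : W} (h : adjW u v) (hlt : pos u < pos v) : ∃ i, u = below v i := by
  rcases h with ⟨i, j, _, h1, h2⟩ | ⟨l, i, h1, h2⟩ | ⟨l, i, h1, h2⟩
  · exact ⟨i, by rw [h1, h2]; rfl⟩
  · have := pos_cor l i
    rw [h1, h2] at hlt
    simp only [pos] at hlt this
    omega
  · exact ⟨i, by rw [h1, h2]; rfl⟩

theorem adj_below (v : W) (i j : Fin 3) (h : i ≠ j) : adjW (below v i) (below v j) := by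
  rcases v with k | l
  · exact Or.inl ⟨i, j, h, rfl, rfl⟩
  · exact adj_cor l i j h

theorem level_below (v : W) (i : Fin 3) : level (below v i) ≤ level v := by
  rcases v with k | l
  · exact le_rfl
  · exact (level_cor l i).trans (Nat.le_succ _)

theorem net_partialThreeTree (d : ℕ) : PartialThreeTree (Net d) := by
  refine ⟨Net d, fun v => pos v.1, fun u v h => Subtype.ext (pos_injective h), le_rfl,
    fun v => ⟨?_, ?_⟩⟩
  · have hsub : {x | (Net d).Adj x v ∧ pos x.1 < pos v.1} ⊆
        Set.range fun i : Fin 3 =>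
          (⟨below v.1 i, (level_below v.1 i).trans v.2⟩ : {w : W // level w ≤ d}) := by
      rintro x ⟨h1, h2⟩
      obtain ⟨i, hi⟩ := exists_below h1 h2
      exact ⟨i, Subtype.ext hi.symm⟩
    refine (Set.encard_le_encard hsub).trans ?_
    rw [← Set.image_univ]
    refine (Set.encard_image_le _ _).trans ?_
    rw [Set.encard_univ]
    simp
  · intro x y hx hx' hy hy' hxy
    obtain ⟨i, hi⟩ := exists_below hx hx'
    obtain ⟨j, hj⟩ := exists_below hy hy'
    have hij : i ≠ j := by
      rintro rfl
      exact hxy (Subtype.ext (hi.trans hj.symm))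
    show adjW x.1 y.1
    rw [hi, hj]
    exact adj_below _ _ _ hij

instance net_finite (d : ℕ) : Finite {w : W // level w ≤ d} := by
  have hl : Finite {l : List (Fin 3) // l.length < d} := List.finite_length_lt (Fin 3) d
  refine Finite.of_surjective (α := Fin 3 ⊕ {l : List (Fin 3) // l.length < d})
    (fun x => match x with
      | Sum.inl i => ⟨Sum.inl i, Nat.zero_le _⟩
      | Sum.inr l => ⟨Sum.inr l.1, l.2⟩) ?_
  rintro ⟨u | u, hu⟩
  · exact ⟨Sum.inl u, rfl⟩
  · exact ⟨Sum.inr ⟨u, hu⟩, rfl⟩

/-- `Net d`, `d ≥ 1`, contains a complete graph on four vertices. -/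
theorem net_not_three (d : ℕ) (hd : 1 ≤ d) (k : ℕ) (h1 : 1 ≤ k) (h3 : k ≤ 3) :
    ¬ ListPackable (Net d) k := by
  intro H
  obtain ⟨c, c1, c2, _⟩ := H (fun _ => Finset.range k) (fun _ => Finset.card_range k)
  let f : W → ℕ := fun w => if hw : level w ≤ d then c ⟨0, h1⟩ ⟨w, hw⟩ else 0
  have hf : ∀ (w : W), level w ≤ d → f w < 3 := by
    intro w hw
    have := Finset.mem_range.mp (c1 ⟨0, h1⟩ ⟨w, hw⟩)
    simp only [f, dif_pos hw]
    omega
  have hne : ∀ u w : W, level u ≤ d → level w ≤ d → adjW u w → f u ≠ f w := by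
    intro u w hu hw h
    simp only [f, dif_pos hu, dif_pos hw]
    exact c2 _ ⟨u, hu⟩ ⟨w, hw⟩ h
  have l0 : ∀ i : Fin 3, level (Sum.inl i : W) ≤ d := fun i => Nat.zero_le _
  have lc : level (Sum.inr [] : W) ≤ d := by simpa [level] using hd
  have e1 := hne _ _ (l0 0) (l0 1) (Or.inl ⟨0, 1, by decide, rfl, rfl⟩)
  have e2 := hne _ _ (l0 0) (l0 2) (Or.inl ⟨0, 2, by decide, rfl, rfl⟩)
  have e3 := hne _ _ (l0 1) (l0 2) (Or.inl ⟨1, 2, by decide, rfl, rfl⟩)
  have e4 := hne _ _ lc (l0 0) (Or.inr (Or.inl ⟨[], 0, rfl, rfl⟩))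
  have e5 := hne _ _ lc (l0 1) (Or.inr (Or.inl ⟨[], 1, rfl, rfl⟩))
  have e6 := hne _ _ lc (l0 2) (Or.inr (Or.inl ⟨[], 2, rfl, rfl⟩))
  have b0 := hf _ (l0 0)
  have b1 := hf _ (l0 1)
  have b2 := hf _ (l0 2)
  have b3 := hf _ lc
  omega

theorem net_listPackingNumber (d : ℕ) (hd : 4 ≤ d) : listPackingNumber (Net d) = 5 := by
  unfold listPackingNumber
  have h5 : 5 ∈ {k | 1 ≤ k ∧ ListPackable (Net d) k} :=
    ⟨by norm_num, partialThreeTree_packable (net_partialThreeTree d)⟩
  apply le_antisymm (Nat.sInf_le h5)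
  by_contra hlt
  obtain ⟨hk1, hk2⟩ := Nat.sInf_mem ⟨5, h5⟩
  generalize sInf {k | 1 ≤ k ∧ ListPackable (Net d) k} = k at hlt hk1 hk2
  have hk6 : k < 5 := not_le.mp hlt
  rcases Nat.lt_or_ge k 4 with h | h
  · exact net_not_three d (by omega) k hk1 (by omega) hk2
  · have : k = 4 := by omega
    subst this
    exact net_not_four d hd hk2

end Pool.Agent.H45.Tw
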