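import Pool.Agent.H45.Tw.Core
import Pool.Graph.R_seed8.TH455.Upper

set_option autoImplicit false

/-!
# Graphs of treewidth at most three have list packings with five colours
-/

namespace Pool.Agent.H45.Tw

open Pool.Agent.TH455

/-- Partial 3-trees, that is, graphs of treewidth at most three: the vertices can be ordered, and
edges added, in such a way that the earlier neighbours of every vertex are pairwise adjacent and
at most three in number. -/
def PartialThreeTree {V : Type} (G : SimpleGraph V) : Prop :=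
  ∃ (H : SimpleGraph V) (r : V → ℕ), Function.Injective r ∧ G ≤ H ∧
    ∀ v, {x | H.Adj x v ∧ r x < r v}.encard ≤ 3 ∧
      ∀ x y, H.Adj x v → r x < r v → H.Adj y v → r y < r v → x ≠ y → H.Adj x y

theorem not_dead_of {a b c : Fin 5 → ℕ} (h : ∀ i j, c i ≠ a j) : ¬ Dead a b c := by
  rintro ⟨I, hI, h1, h2⟩
  obtain ⟨i, hi⟩ := Finset.card_pos.mp (by rw [hI]; norm_num : 0 < I.card)
  have hm := Finset.mem_image_of_mem c hi
  rw [← h2, ← h1] at hm
  obtain ⟨j, _, hj⟩ := Finset.mem_image.mp hm
  exact h i j hj.symm

/-- A row of new colours. -/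
def dummy (M : ℕ) : Fin 5 → ℕ := fun i => M + i

theorem dummy_injective (M : ℕ) : Function.Injective (dummy M) := by
  intro i j h
  simp only [dummy] at h
  exact Fin.ext (by omega)

theorem exists_bound (a : Fin 5 → ℕ) : ∃ M, ∀ i, a i < M := by
  refine ⟨∑ i, a i + 1, fun i => ?_⟩
  have := Finset.single_le_sum (f := a) (fun _ _ => Nat.zero_le _) (Finset.mem_univ i)
  omega

theorem three_rows {V : Type} {N : Finset V} (hN : N.card ≤ 3) (π : V → Fin 5 → ℕ)
    (inj : ∀ x ∈ N, Function.Injective (π x))
    (dis : ∀ x ∈ N, ∀ y ∈ N, x ≠ y → ∀ i, π x i ≠ π y i)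
    (nd : ∀ x ∈ N, ∀ y ∈ N, ∀ z ∈ N, x ≠ y → x ≠ z → y ≠ z → ¬ Dead (π x) (π y) (π z)) :
    ∃ a b c : Fin 5 → ℕ, Function.Injective a ∧ Function.Injective b ∧ Function.Injective c ∧
      (∀ i, a i ≠ b i) ∧ (∀ i, a i ≠ c i) ∧ (∀ i, b i ≠ c i) ∧ ¬ Dead a b c ∧
      ∀ x ∈ N, π x = a ∨ π x = b ∨ π x = c := by
  classical
  have hcases : N.card = 0 ∨ N.card = 1 ∨ N.card = 2 ∨ N.card = 3 := by omega
  rcases hcases with h | h | h | h
  · rw [Finset.card_eq_zero] at h
    subst h
    refine ⟨dummy 0, dummy 5, dummy 10, dummy_injective _, dummy_injective _, dummy_injective _,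
      fun i => ?_, fun i => ?_, fun i => ?_, not_dead_of fun i j => ?_, fun x hx => ?_⟩
    · simp only [dummy]; omega
    · simp only [dummy]; omega
    · simp only [dummy]; omega
    · simp only [dummy]; omega
    · exact absurd hx (Finset.notMem_empty x)
  · obtain ⟨x, rfl⟩ := Finset.card_eq_one.mp h
    obtain ⟨M, hM⟩ := exists_bound (π x)
    refine ⟨π x, dummy M, dummy (M + 5), inj x (by simp), dummy_injective _, dummy_injective _,
      fun i => ?_, fun i => ?_, fun i => ?_, not_dead_of fun i j => ?_, fun y hy => ?_⟩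
    · have := hM i
      simp only [dummy]; omega
    · have := hM i
      simp only [dummy]; omega
    · simp only [dummy]; omega
    · have := hM j
      simp only [dummy]; omega
    · rw [Finset.mem_singleton] at hy
      exact Or.inl (by rw [hy])
  · obtain ⟨x, y, hxy, rfl⟩ := Finset.card_eq_two.mp h
    obtain ⟨M, hM⟩ := exists_bound (π x)
    obtain ⟨M', hM'⟩ := exists_bound (π y)
    refine ⟨π x, π y, dummy (M + M'), inj x (by simp), inj y (by simp), dummy_injective _,
      dis x (by simp) y (by simp) hxy, fun i => ?_, fun i => ?_, not_dead_of fun i j => ?_,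
      fun z hz => ?_⟩
    · have := hM i
      simp only [dummy]; omega
    · have := hM' i
      simp only [dummy]; omega
    · have := hM j
      simp only [dummy]; omega
    · rw [Finset.mem_insert, Finset.mem_singleton] at hz
      rcases hz with hz | hz
      · exact Or.inl (by rw [hz])
      · exact Or.inr (Or.inl (by rw [hz]))
  · obtain ⟨x, y, z, hxy, hxz, hyz, rfl⟩ := Finset.card_eq_three.mp h
    refine ⟨π x, π y, π z, inj x (by simp), inj y (by simp), inj z (by simp),
      dis x (by simp) y (by simp) hxy, dis x (by simp) z (by simp) hxz,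
      dis y (by simp) z (by simp) hyz, nd x (by simp) y (by simp) z (by simp) hxy hxz hyz,
      fun u hu => ?_⟩
    rw [Finset.mem_insert, Finset.mem_insert, Finset.mem_singleton] at hu
    rcases hu with hu | hu | hu
    · exact Or.inl (by rw [hu])
    · exact Or.inr (Or.inl (by rw [hu]))
    · exact Or.inr (Or.inr (by rw [hu]))

theorem new_row {V : Type} {N : Finset V} (hN : N.card ≤ 3) (π : V → Fin 5 → ℕ)
    (inj : ∀ x ∈ N, Function.Injective (π x))
    (dis : ∀ x ∈ N, ∀ y ∈ N, x ≠ y → ∀ i, π x i ≠ π y i)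
    (nd : ∀ x ∈ N, ∀ y ∈ N, ∀ z ∈ N, x ≠ y → x ≠ z → y ≠ z → ¬ Dead (π x) (π y) (π z))
    {L : Finset ℕ} (hL : L.card = 5) :
    ∃ w : Fin 5 → ℕ, Function.Injective w ∧ (∀ i, w i ∈ L) ∧ (∀ x ∈ N, ∀ i, w i ≠ π x i) ∧
      ∀ x ∈ N, ∀ y ∈ N, x ≠ y → ¬ Dead (π x) (π y) w := by
  obtain ⟨a, b, c, ha, hb, hc, hab, hac, hbc, hd, hcov⟩ := three_rows hN π inj dis nd
  obtain ⟨w, w1, w2, w3, w4, w5, w6, w7, w8⟩ := ext ha hb hc hab hac hbc hd hL
  refine ⟨w, w1, w2, fun x hx => ?_, fun x hx y hy hxy => ?_⟩
  · rcases hcov x hx with h | h | h <;> rw [h] <;> assumption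
  · have hne : π x ≠ π y := fun h => dis x hx y hy hxy 0 (by rw [h])
    rcases hcov x hx with h | h | h <;> rcases hcov y hy with h' | h' | h' <;> rw [h, h']
    · exact absurd (h.trans h'.symm) hne
    · exact w6
    · exact w7
    · exact fun k => w6 k.swap
    · exact absurd (h.trans h'.symm) hne
    · exact w8
    · exact fun k => w7 k.swap
    · exact fun k => w8 k.swap
    · exact absurd (h.trans h'.symm) hne

theorem partialThreeTree_packable {V : Type} [Finite V] {G : SimpleGraph V}
    (hG : PartialThreeTree G) : ListPackable G 5 := by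
  classical
  obtain ⟨H, r, hr, hGH, hH⟩ := hG
  intro L hL
  have main : ∀ n : ℕ, ∃ π : V → Fin 5 → ℕ,
      (∀ v, r v < n → Function.Injective (π v) ∧ ∀ i, π v i ∈ L v) ∧
      (∀ u v, r u < n → r v < n → H.Adj u v → ∀ i, π u i ≠ π v i) ∧
      ∀ x y z, r x < n → r y < n → r z < n → H.Adj x y → H.Adj x z → H.Adj y z →
        ¬ Dead (π x) (π y) (π z) := by
    intro n
    induction n with
    | zero =>
      exact ⟨fun _ _ => 0, fun v h => absurd h (Nat.not_lt_zero _),
        fun u v h => absurd h (Nat.not_lt_zero _), fun x y z h => absurd h (Nat.not_lt_zero _)⟩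
    | succ n ih =>
      obtain ⟨π, h1, h2, h3⟩ := ih
      by_cases hv : ∃ v, r v = n
      · obtain ⟨v, hv⟩ := hv
        obtain ⟨hN, hclique⟩ := hH v
        have hfin : {x | H.Adj x v ∧ r x < r v}.Finite := Set.toFinite _
        have hcard : hfin.toFinset.card ≤ 3 := by
          have := hfin.encard_eq_coe_toFinset_card
          rw [this] at hN
          exact_mod_cast hN
        have hmem : ∀ x, x ∈ hfin.toFinset ↔ H.Adj x v ∧ r x < n := by
          intro x
          rw [Set.Finite.mem_toFinset, Set.mem_ofPred_eq, hv]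
        have hadj : ∀ x ∈ hfin.toFinset, ∀ y ∈ hfin.toFinset, x ≠ y → H.Adj x y := by
          intro x hx y hy hxy
          rw [hmem] at hx hy
          exact hclique x y hx.1 (by rw [hv]; exact hx.2) hy.1 (by rw [hv]; exact hy.2) hxy
        obtain ⟨w, w1, w2, w3, w4⟩ := new_row hcard π
          (fun x hx => (h1 x ((hmem x).mp hx).2).1)
          (fun x hx y hy hxy => h2 x y ((hmem x).mp hx).2 ((hmem y).mp hy).2
            (hadj x hx y hy hxy))
          (fun x hx y hy z hz hxy hxz hyz => h3 x y z ((hmem x).mp hx).2 ((hmem y).mp hy).2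
            ((hmem z).mp hz).2 (hadj x hx y hy hxy) (hadj x hx z hz hxz) (hadj y hy z hz hyz))
          (hL v)
        have hlt : ∀ x, x ≠ v → r x < n + 1 → r x < n := by
          intro x hx hxn
          rcases Nat.lt_succ_iff_lt_or_eq.mp hxn with h | h
          · exact h
          · exact absurd (hr (h.trans hv.symm)) hx
        have hnb : ∀ x, H.Adj x v → r x < n + 1 → x ∈ hfin.toFinset := fun x hx hxn =>
          (hmem x).mpr ⟨hx, hlt x hx.ne hxn⟩
        have hπv : Function.update π v w v = w := Function.update_self ..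
        have hπx : ∀ x, x ≠ v → Function.update π v w x = π x := fun x hx =>
          Function.update_of_ne hx ..
        refine ⟨Function.update π v w, ?_, ?_, ?_⟩
        · intro x hx
          by_cases hxv : x = v
          · subst hxv
            rw [hπv]
            exact ⟨w1, w2⟩
          · rw [hπx x hxv]
            exact h1 x (hlt x hxv hx)
        · intro x y hx hy hxy
          by_cases hxv : x = v
          · subst hxv
            rw [hπv, hπx y hxy.symm.ne]
            exact w3 y (hnb y hxy.symm hy)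
          · by_cases hyv : y = v
            · subst hyv
              rw [hπv, hπx x hxv]
              exact fun i => (w3 x (hnb x hxy hx) i).symm
            · rw [hπx x hxv, hπx y hyv]
              exact h2 x y (hlt x hxv hx) (hlt y hyv hy) hxy
        · intro x y z hx hy hz hxy hxz hyz
          by_cases hxv : x = v
          · subst hxv
            rw [hπv, hπx y hxy.symm.ne, hπx z hxz.symm.ne]
            exact fun k => w4 y (hnb y hxy.symm hy) z (hnb z hxz.symm hz) hyz.ne k.rot
          · by_cases hyv : y = v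
            · subst hyv
              rw [hπv, hπx x hxv, hπx z hyz.symm.ne]
              exact fun k => w4 x (hnb x hxy hx) z (hnb z hyz.symm hz) hxz.ne k.swap.rot
            · by_cases hzv : z = v
              · subst hzv
                rw [hπv, hπx x hxv, hπx y hyv]
                exact w4 x (hnb x hxz hx) y (hnb y hyz hy) hxy.ne
              · rw [hπx x hxv, hπx y hyv, hπx z hzv]
                exact h3 x y z (hlt x hxv hx) (hlt y hyv hy) (hlt z hzv hz) hxy hxz hyz
      · have hlt : ∀ x, r x < n + 1 → r x < n := by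
          intro x hxn
          rcases Nat.lt_succ_iff_lt_or_eq.mp hxn with h | h
          · exact h
          · exact absurd ⟨x, h⟩ hv
        exact ⟨π, fun x hx => h1 x (hlt x hx), fun x y hx hy => h2 x y (hlt x hx) (hlt y hy),
          fun x y z hx hy hz => h3 x y z (hlt x hx) (hlt y hy) (hlt z hz)⟩
  obtain ⟨n, hn⟩ : ∃ n, ∀ v, r v < n := by
    obtain ⟨n, hn⟩ := (Set.finite_range r).bddAbove
    exact ⟨n + 1, fun v => Nat.lt_succ_of_le (hn ⟨v, rfl⟩)⟩
  obtain ⟨π, h1, h2, _⟩ := main n
  refine ⟨fun i v => π v i, fun i v => (h1 v (hn v)).2 i, fun i u v huv =>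
    h2 u v (hn u) (hn v) (hGH huv) i, fun v i j hij h => hij ((h1 v (hn v)).1 h)⟩

end Pool.Agent.H45.Tw
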